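import Pool.Agent.Q88.ETO.B

/-!
# Conjugation, scaling, and the main equivalences
-/

set_option autoImplicit false

open Module
open scoped PeriodPair ComplexConjugate

noncomputable section

namespace Q88.ETO

open H667R3 Pool.Agent.W245.EB Pool.Agent.TH813.Ell
open Pool.Agent.Y685 (Hm)
open Pool.Agent.TH813.Rel (MK mem_cl subset_cl rk_le_of_subset_cl adjoin_subset_cl
  cl_add cl_mul cl_inv cl_of_base toENat_trdeg)
open Pool.Agent.Y776.Et (Conjecture Holds gen trd dimMod T₀ P₀ ζ k)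

variable {L : PeriodPair} {K : IntermediateField ℚ ℂ}

/-- There are real algebraic numbers outside any finite dimensional space. -/
theorem exists_algebraic_notMem [FiniteDimensional ℚ K] (V : Submodule K ℂ)
    [FiniteDimensional K V] : ∃ x : ℝ, IsAlgebraic ℚ (x : ℂ) ∧ (x : ℂ) ∉ V := by
  by_contra hcon
  push Not at hcon
  have hfd : FiniteDimensional ℚ (toQ V) := fin_toQ V
  obtain ⟨p, hp1, hp⟩ := Nat.exists_infinite_primes (Module.finrank ℚ (toQ V) + 1)
  have hp0 : p ≠ 0 := hp.ne_zero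
  let b : ℝ := (2 : ℝ) ^ ((p : ℝ)⁻¹)
  have hb : b ^ p = 2 := Real.rpow_inv_natCast_pow (by norm_num) hp0
  let a : ℂ := (b : ℂ)
  have ha : a ^ p = 2 := by
    have : ((b ^ p : ℝ) : ℂ) = 2 := by rw [hb]; norm_num
    rw [← this]
    push_cast
    rfl
  have hirr : Irreducible (Polynomial.X ^ p - Polynomial.C (2 : ℚ)) := by
    apply X_pow_sub_C_irreducible_of_prime hp
    intro b hb
    have h2 : Fact (Nat.Prime 2) := ⟨Nat.prime_two⟩
    have hb0 : b ≠ 0 := by
      rintro rfl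
      rw [zero_pow hp0] at hb
      norm_num at hb
    have h3 := congrArg (padicValRat 2) hb
    rw [padicValRat.pow] at h3
    have h4 : padicValRat 2 (2 : ℚ) = 1 := by
      have := padicValRat.self (p := 2) (by norm_num)
      simpa using this
    rw [h4] at h3
    have h5 : (p : ℤ) ∣ 1 := ⟨_, h3.symm⟩
    have h6 : (p : ℤ) ≤ 1 := Int.le_of_dvd one_pos h5
    have := hp.two_le
    omega
  have hmin : minpoly ℚ a = Polynomial.X ^ p - Polynomial.C (2 : ℚ) := by
    symm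
    apply minpoly.eq_of_irreducible_of_monic hirr
    · simp [ha]
    · exact Polynomial.monic_X_pow_sub_C _ hp0
  have hdeg : (minpoly ℚ a).natDegree = p := by
    rw [hmin, Polynomial.natDegree_X_pow_sub_C]
  have hlin := linearIndependent_pow (K := ℚ) a
  have halg : IsAlgebraic ℚ a := by
    refine ⟨Polynomial.X ^ p - Polynomial.C (2 : ℚ), hirr.ne_zero, ?_⟩
    simp [ha]
  have hpow : ∀ i : ℕ, a ^ i ∈ toQ V := by
    intro i
    have h1 := hcon (b ^ i) (by
      have := halg.pow i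
      simpa [a] using this)
    simpa [a] using h1
  have hlin2 : LinearIndependent ℚ (fun i : Fin (minpoly ℚ a).natDegree =>
      (⟨a ^ (i : ℕ), hpow i⟩ : toQ V)) := by
    apply LinearIndependent.of_comp (toQ V).subtype
    exact hlin
  have h7 := hlin2.fintype_card_le_finrank
  rw [Fintype.card_fin, hdeg] at h7
  omega

theorem Bad.enlarge [FiniteDimensional ℚ K] (hK : kL L ≤ K) (C : Submodule K ℂ → Prop)
    (hC : ∀ (V : Submodule K ℂ) (x : ℝ), C V → C (V ⊔ Submodule.span K {(x : ℂ)}))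
    {V : Submodule K ℂ} (hfin : FiniteDimensional K V) (hB : Bad L (toQ V) (toK hK V))
    (hCV : C V) (m : ℕ) (hm : finrank K V ≤ m) :
    ∃ W : Submodule K ℂ, FiniteDimensional K W ∧ V ≤ W ∧ Bad L (toQ W) (toK hK W) ∧ C W ∧
      finrank K W = m := by
  induction m, hm using Nat.le_induction with
  | base => exact ⟨V, hfin, le_rfl, hB, hCV, rfl⟩
  | succ m hm ih =>
    obtain ⟨W, h1, h2, h3, h4, h5⟩ := ih
    obtain ⟨x, hx, hxW⟩ := exists_algebraic_notMem W
    have hfd : FiniteDimensional K (W ⊔ Submodule.span K {(x : ℂ)} : Submodule K ℂ) :=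
      Submodule.finiteDimensional_sup _ _
    have f1 := fin_toQ (W ⊔ Submodule.span K {(x : ℂ)})
    have f2 := fin_toK (W ⊔ Submodule.span K {(x : ℂ)}) hK
    have hle : W ≤ W ⊔ Submodule.span K {(x : ℂ)} := le_sup_left
    have h6 : W ⊔ Submodule.span K {(x : ℂ)} ≤
        clK K (NK L (toQ W) (toQ W) (toK hK W) (toK hK W)) := by
      refine sup_le (fun y hy => subset_cl _ (Or.inr (Or.inl (Or.inl hy)))) ?_
      rw [Submodule.span_singleton_le_iff_mem]
      exact cl_alg hx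
    refine ⟨W ⊔ Submodule.span K {(x : ℂ)}, hfd, h2.trans hle,
      h3.absorb (fun y hy => hle hy) (fun y hy => hle hy) (fun y hy => h6 hy)
        (fun y hy => h6 hy), hC _ _ h4, ?_⟩
    rw [finrank_add_span W hxW, h5]

/-- the inequality for one space -/
def Ineq (L : PeriodPair) {K : IntermediateField ℚ ℂ} (V : Submodule K ℂ) : Prop :=
  ((finrank ℚ K * finrank K V + 2 * (finrank ℚ K * finrank K V / finrank ℚ (k L)) : ℕ) :
    Cardinal) ≤ trd ℚ (Num L V) + 1

theorem P₁_le {V : Submodule K ℂ} (h : (2 * Real.pi * Complex.I : ℂ) ∈ V) : P₁ ≤ toQ V := by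
  unfold P₁
  rw [Submodule.span_singleton_le_iff_mem]
  exact h

theorem P₂_le (hK : kL L ≤ K) {V : Submodule K ℂ} (h₁ : L.ω₁ ∈ V) (h₂ : L.ω₂ ∈ V) :
    P₂ L ≤ toK hK V := by
  have h3 : (P₂ L).restrictScalars ℚ ≤ toQ V := by
    rw [P₂_restrict, Submodule.span_le]
    rintro _ ⟨i, rfl⟩
    fin_cases i
    · exact h₁
    · exact h₂
  intro x hx
  exact h3 hx

theorem bad_iff [FiniteDimensional ℚ K] (hK : kL L ≤ K) (V : Submodule K ℂ)
    [FiniteDimensional K V] : Bad L (toQ V) (toK hK V) ↔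
      (2 * Real.pi * Complex.I : ℂ) ∈ V ∧ L.ω₁ ∈ V ∧ L.ω₂ ∈ V ∧ ¬ Ineq L V := by
  have key : M.eRk (NK L (toQ V) (toQ V) (toK hK V) (toK hK V)) + ((2 : ℕ) : ℕ∞) ≤
      ((finrank ℚ (toQ V) + 2 * finrank (kL L) (toK hK V) : ℕ) : ℕ∞) ↔ ¬ Ineq L V := by
    rw [NK_eq_Num, finrank_toQ, finrank_toK' V hK]
    unfold Ineq
    have h := trd_iff (S := Num L V) (N := finrank ℚ K * finrank K V +
      2 * (finrank ℚ K * finrank K V / finrank ℚ (k L))) (m := 1)
    rw [Nat.cast_one] at h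
    rw [h, not_le]
    have e : k L = kL L := rfl
    rw [e]
    constructor
    · intro h1
      have t1 : M.eRk (Num L V) ≠ ⊤ := by
        intro h
        rw [h, top_add, top_le_iff] at h1
        exact ENat.natCast_ne_top _ h1
      obtain ⟨r, hr⟩ := ENat.ne_top_iff_exists.1 t1
      rw [← hr] at h1 ⊢
      norm_cast at h1 ⊢
    · intro h1
      have t1 : M.eRk (Num L V) ≠ ⊤ := by
        intro h
        rw [h, top_add] at h1
        exact not_top_lt h1
      obtain ⟨r, hr⟩ := ENat.ne_top_iff_exists.1 t1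
      rw [← hr] at h1 ⊢
      norm_cast at h1 ⊢
  constructor
  · intro h
    exact ⟨h.hT (Submodule.mem_span_singleton_self _), h.hP (lattice_le_P₂ L.ω₁_mem_lattice),
      h.hP (lattice_le_P₂ L.ω₂_mem_lattice), key.1 h.lt⟩
  · rintro ⟨h1, h2, h3, h4⟩
    exact ⟨fin_toQ V, fin_toK V hK, P₁_le h1, P₂_le hK h2 h3, key.2 h4⟩

/-- **One space**, for a fixed lattice. -/
theorem main₁ [FiniteDimensional ℚ K] (hK : kL L ≤ K) (S : Finset ℂ)
    (hS : ∀ x ∈ S, ClosedForm L x) (D : Set ℕ) (hD : D.Infinite) :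
    Conjecture L ↔ ∀ V : Submodule K ℂ, FiniteDimensional K V → finrank K V ∈ D →
      (S : Set ℂ) ⊆ V → (2 * Real.pi * Complex.I : ℂ) ∈ V → L.ω₁ ∈ V → L.ω₂ ∈ V → Ineq L V := by
  constructor
  · intro h V hV _ _ h1 h2 h3
    by_contra hcon
    exact ((bad_iff hK V).2 ⟨h1, h2, h3, hcon⟩).not_conjecture h
  · intro h
    by_contra hcon
    obtain ⟨T, P, hTP⟩ := not_conjecture_iff.1 hcon
    obtain ⟨T₁, P₁', g1, g2, g3, g4, g5⟩ := hTP.absorb_finset S hS
    obtain ⟨V, hV, e1, e2, e3⟩ := g3.one_space hK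
    obtain ⟨m, hm, hm'⟩ := hD.exists_gt (finrank K V)
    obtain ⟨W, hW, f1, f2, -, f3⟩ := e3.enlarge hK (fun _ => True) (fun _ _ _ => trivial) hV
      trivial m hm'.le
    obtain ⟨p1, p2, p3, p4⟩ := (bad_iff hK W).1 f2
    exact p4 (h W hW (f3 ▸ hm) (fun x hx => f1 (e1 (g4 hx))) p1 p2 p3)

/-! ### Conjugation -/

/-- complex conjugation as a rational algebra isomorphism -/
def cj : ℂ ≃ₐ[ℚ] ℂ := Complex.conjAe.restrictScalars ℚ

theorem cj_apply (z : ℂ) : cj z = (starRingEnd ℂ) z := rfl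

theorem cj_cj (z : ℂ) : cj (cj z) = z := by
  rw [cj_apply, cj_apply, Complex.conj_conj]

theorem eRk_image_le (X : Set ℂ) : M.eRk X ≤ M.eRk (cj '' X) := by
  rw [M.eRk_le_iff]
  intro I hI hind
  have h2 : M.Indep (cj '' I) := by
    rw [AlgebraicIndependent.matroid_indep_iff] at hind ⊢
    have h3 : AlgebraicIndependent ℚ (fun x : I => cj (x : ℂ)) :=
      (AlgebraicIndependent.map' hind (f := (cj : ℂ →ₐ[ℚ] ℂ)) cj.injective)
    have h4 := h3.to_subtype_range
    have h5 : Set.range (fun x : I => cj (x : ℂ)) = cj '' I := by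
      rw [Set.image_eq_range]
    rw [h5] at h4
    exact h4
  have h3 := h2.encard_le_eRk_of_subset (Set.image_mono hI)
  rwa [cj.injective.encard_image] at h3

section cjs

/-- conjugation of the lattice -/
def cEq (hL : ∀ w ∈ L.lattice, conj w ∈ L.lattice) : L.lattice ≃ L.lattice where
  toFun := fun l => ⟨conj (l : ℂ), hL _ l.2⟩
  invFun := fun l => ⟨conj (l : ℂ), hL _ l.2⟩
  left_inv := fun l => by
    apply Subtype.ext
    exact Complex.conj_conj _
  right_inv := fun l => by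
    apply Subtype.ext
    exact Complex.conj_conj _

theorem cEq_apply (hL : ∀ w ∈ L.lattice, conj w ∈ L.lattice) (l : L.lattice) :
    ((cEq hL l : L.lattice) : ℂ) = conj (l : ℂ) := rfl

theorem conj_G (hL : ∀ w ∈ L.lattice, conj w ∈ L.lattice) (n : ℕ) : conj (L.G n) = L.G n := by
  rw [PeriodPair.G, Complex.conj_tsum, ← (cEq hL).tsum_eq]
  refine tsum_congr (fun l => ?_)
  rw [cEq_apply, map_inv₀, map_pow, Complex.conj_conj]

theorem conj_zeta (hL : ∀ w ∈ L.lattice, conj w ∈ L.lattice) (z : ℂ) :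
    ζ L (conj z) = conj (ζ L z) := by
  rw [ζ, ζ, Complex.conj_tsum, ← (cEq hL).tsum_eq]
  refine tsum_congr (fun l => ?_)
  rw [cEq_apply]
  simp only [map_add, map_div₀, map_sub, map_one, map_pow]

theorem conj_wp (hL : ∀ w ∈ L.lattice, conj w ∈ L.lattice) (z : ℂ) :
    ℘[L] (conj z) = conj (℘[L] z) := by
  rw [PeriodPair.weierstrassP, PeriodPair.weierstrassP, Complex.conj_tsum, ← (cEq hL).tsum_eq]
  refine tsum_congr (fun l => ?_)
  rw [cEq_apply]
  simp only [map_div₀, map_sub, map_one, map_pow]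

theorem conj_notMem (hL : ∀ w ∈ L.lattice, conj w ∈ L.lattice) {z : ℂ} (hz : z ∉ L.lattice) :
    conj z ∉ L.lattice := fun h => hz (by
  have := hL _ h
  rwa [Complex.conj_conj] at this)

/-- the conjugate space -/
def bar (hc : ∀ a ∈ K, conj a ∈ K) (V : Submodule K ℂ) : Submodule K ℂ where
  carrier := {x | conj x ∈ V}
  add_mem' := fun {a b} ha hb => by
    rw [Set.mem_ofPred_eq] at ha hb ⊢
    rw [map_add]
    exact V.add_mem ha hb
  zero_mem' := by
    rw [Set.mem_ofPred_eq, map_zero]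
    exact V.zero_mem
  smul_mem' := fun a x hx => by
    rw [Set.mem_ofPred_eq] at hx ⊢
    have h1 : conj (a • x) = (⟨conj (a : ℂ), hc _ a.2⟩ : K) • conj x := by
      change conj ((a : ℂ) * x) = conj (a : ℂ) * conj x
      rw [map_mul]
    rw [h1]
    exact V.smul_mem _ hx

theorem mem_bar {hc : ∀ a ∈ K, conj a ∈ K} {V : Submodule K ℂ} {x : ℂ} :
    x ∈ bar hc V ↔ conj x ∈ V := Iff.rfl

theorem toQ_bar (hc : ∀ a ∈ K, conj a ∈ K) (V : Submodule K ℂ) :
    toQ (bar hc V) = (toQ V).map cj.toLinearMap := by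
  ext z
  constructor
  · intro hz
    exact ⟨cj z, hz, cj_cj z⟩
  · rintro ⟨y, hy, rfl⟩
    have h1 : conj (cj.toLinearMap y) = y := cj_cj y
    have h2 : conj (cj.toLinearMap y) ∈ V := by rw [h1]; exact hy
    exact h2

variable [FiniteDimensional ℚ K]

theorem fin_bar (hc : ∀ a ∈ K, conj a ∈ K) (V : Submodule K ℂ) [FiniteDimensional K V] :
    FiniteDimensional K (bar hc V) := by
  have h0 := fin_toQ V
  have h1 : FiniteDimensional ℚ (toQ (bar hc V)) := by
    rw [toQ_bar]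
    infer_instance
  have h2 : Module.Finite ℚ (bar hc V) := h1
  exact Module.Finite.of_restrictScalars_finite ℚ K (bar hc V)

theorem finrank_bar (hc : ∀ a ∈ K, conj a ∈ K) (V : Submodule K ℂ) [FiniteDimensional K V] :
    finrank K (bar hc V) = finrank K V := by
  have h0 := fin_bar hc V
  have h1 := finrank_toQ (bar hc V)
  have h2 := finrank_toQ V
  have h3 : finrank ℚ (toQ (bar hc V)) = finrank ℚ (toQ V) := by
    rw [toQ_bar]
    exact LinearEquiv.finrank_map_eq cj.toLinearEquiv (toQ V)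
  rw [h3, h2] at h1
  exact (Nat.eq_of_mul_eq_mul_left Module.finrank_pos h1).symm

theorem Num_bar (hL : ∀ w ∈ L.lattice, conj w ∈ L.lattice) (hc : ∀ a ∈ K, conj a ∈ K)
    (V : Submodule K ℂ) : cj '' Num L (bar hc V) ⊆ Num L V := by
  rintro _ ⟨x, hx, rfl⟩
  rw [cj_apply]
  rcases hx with (rfl | rfl) | ((hx | ⟨y, hy, rfl⟩) | (⟨y, ⟨hy, hyL⟩, rfl⟩ | ⟨y, ⟨hy, hyL⟩, rfl⟩))
  · left; left
    rw [PeriodPair.g₂, map_mul, conj_G hL, map_ofNat (starRingEnd ℂ) 60]
  · left; right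
    rw [PeriodPair.g₃, map_mul, conj_G hL, map_ofNat (starRingEnd ℂ) 140]
    rfl
  · exact Or.inr (Or.inl (Or.inl hx))
  · rw [← Complex.exp_conj]
    exact Or.inr (Or.inl (Or.inr ⟨_, hy, rfl⟩))
  · rw [← conj_zeta hL]
    exact Or.inr (Or.inr (Or.inl ⟨_, ⟨hy, conj_notMem hL hyL⟩, rfl⟩))
  · rw [← conj_wp hL]
    exact Or.inr (Or.inr (Or.inr ⟨_, ⟨hy, conj_notMem hL hyL⟩, rfl⟩))

theorem Bad.bar (hK : kL L ≤ K) (hL : ∀ w ∈ L.lattice, conj w ∈ L.lattice)
    (hc : ∀ a ∈ K, conj a ∈ K) {V : Submodule K ℂ} (hfin : FiniteDimensional K V)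
    (h : Bad L (toQ V) (toK hK V)) : Bad L (toQ (Q88.ETO.bar hc V)) (toK hK (Q88.ETO.bar hc V)) := by
  have hf := fin_bar hc V
  refine ⟨fin_toQ _, fin_toK _ hK, P₁_le ?_, P₂_le hK ?_ ?_, ?_⟩
  · have h1 : (2 * Real.pi * Complex.I : ℂ) ∈ V := h.hT (Submodule.mem_span_singleton_self _)
    have h2 : conj (2 * Real.pi * Complex.I : ℂ) = -(2 * Real.pi * Complex.I) := by
      rw [map_mul, map_mul, Complex.conj_I, Complex.conj_ofReal]
      have : conj (2 : ℂ) = 2 := Complex.conj_ofNat 2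
      rw [this]
      ring
    rw [mem_bar, h2]
    exact V.neg_mem h1
  · exact h.hP (lattice_le_P₂ (hL _ L.ω₁_mem_lattice))
  · exact h.hP (lattice_le_P₂ (hL _ L.ω₂_mem_lattice))
  · have h1 : M.eRk (NK L (toQ (Q88.ETO.bar hc V)) (toQ (Q88.ETO.bar hc V)) (toK hK (Q88.ETO.bar hc V))
        (toK hK (Q88.ETO.bar hc V))) ≤ M.eRk (NK L (toQ V) (toQ V) (toK hK V) (toK hK V)) := by
      rw [NK_eq_Num, NK_eq_Num]
      exact (eRk_image_le _).trans (M.eRk_mono (Num_bar hL hc V))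
    refine (add_le_add_left h1 _).trans ?_
    have h2 := h.lt
    have e1 := finrank_toQ V
    have e2 := finrank_toQ (Q88.ETO.bar hc V)
    have e3 := finrank_toK' V hK
    have e4 := finrank_toK' (Q88.ETO.bar hc V) hK
    rw [finrank_bar hc V] at e2 e4
    rw [e1, e3] at h2
    rw [e2, e4]
    exact h2

theorem Bad.exists_stable (hK : kL L ≤ K) (hL : ∀ w ∈ L.lattice, conj w ∈ L.lattice)
    (hc : ∀ a ∈ K, conj a ∈ K) {V : Submodule K ℂ} (hfin : FiniteDimensional K V)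
    (h : Bad L (toQ V) (toK hK V)) (S : Finset ℂ) (hS : ∀ x ∈ S, conj x ∈ S)
    (hSV : (S : Set ℂ) ⊆ V) :
    ∃ W : Submodule K ℂ, FiniteDimensional K W ∧ Bad L (toQ W) (toK hK W) ∧
      (∀ x ∈ W, conj x ∈ W) ∧ (S : Set ℂ) ⊆ W := by
  have hf := fin_bar hc V
  have hSV' : (S : Set ℂ) ⊆ Q88.ETO.bar hc V := fun x hx => hSV (hS x hx)
  rcases h.inf_or_sup (h.bar hK hL hc hfin) with h1 | h1
  · refine ⟨V ⊓ Q88.ETO.bar hc V, Submodule.finiteDimensional_inf_left _ _, ?_, ?_,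
      Set.subset_inter hSV hSV'⟩
    · exact h1
    · rintro x ⟨hx, hx'⟩
      refine ⟨hx', ?_⟩
      change conj (conj x) ∈ V
      rw [Complex.conj_conj]
      exact hx
  · refine ⟨V ⊔ Q88.ETO.bar hc V, Submodule.finiteDimensional_sup _ _, ?_, ?_,
      fun x hx => Submodule.mem_sup_left (hSV hx)⟩
    · have e1 : toQ V ⊔ toQ (Q88.ETO.bar hc V) = toQ (V ⊔ Q88.ETO.bar hc V) := by
        ext x
        rw [mem_toQ, Submodule.mem_sup, Submodule.mem_sup]
        rfl
      have e2 : toK hK V ⊔ toK hK (Q88.ETO.bar hc V) = toK hK (V ⊔ Q88.ETO.bar hc V) := by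
        ext x
        rw [mem_toK, Submodule.mem_sup, Submodule.mem_sup]
        rfl
      rw [e1, e2] at h1
      exact h1
    · intro x hx
      obtain ⟨y, hy, z, hz, rfl⟩ := Submodule.mem_sup.1 hx
      rw [map_add, add_comm]
      refine Submodule.add_mem_sup hz ?_
      change conj (conj y) ∈ V
      rw [Complex.conj_conj]
      exact hy

/-- **One space stable under conjugation**, for a fixed real lattice. -/
theorem main₂ (hK : kL L ≤ K) (hL : ∀ w ∈ L.lattice, conj w ∈ L.lattice)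
    (hc : ∀ a ∈ K, conj a ∈ K) (S : Finset ℂ) (hS : ∀ x ∈ S, ClosedForm L x)
    (hSc : ∀ x ∈ S, conj x ∈ S) (D : Set ℕ) (hD : D.Infinite) :
    Conjecture L ↔ ∀ V : Submodule K ℂ, FiniteDimensional K V → finrank K V ∈ D →
      (S : Set ℂ) ⊆ V → (2 * Real.pi * Complex.I : ℂ) ∈ V → L.ω₁ ∈ V → L.ω₂ ∈ V →
      (∀ x ∈ V, conj x ∈ V) → Ineq L V := by
  constructor
  · intro h V hV _ _ h1 h2 h3 _
    by_contra hcon
    exact ((bad_iff hK V).2 ⟨h1, h2, h3, hcon⟩).not_conjecture h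
  · intro h
    by_contra hcon
    obtain ⟨T, P, hTP⟩ := not_conjecture_iff.1 hcon
    obtain ⟨T₁, P₁', g1, g2, g3, g4, g5⟩ := hTP.absorb_finset S hS
    obtain ⟨V₀, hV₀, e1, e2, e3⟩ := g3.one_space hK
    obtain ⟨V, hV, e4, e5, e6⟩ := e3.exists_stable hK hL hc hV₀ S hSc (fun x hx => e1 (g4 hx))
    obtain ⟨m, hm, hm'⟩ := hD.exists_gt (finrank K V)
    obtain ⟨W, hW, f1, f2, f4, f3⟩ := e4.enlarge hK (fun V => ∀ x ∈ V, conj x ∈ V)
      (fun V x hV y hy => by
        obtain ⟨a, ha, b, hb, rfl⟩ := Submodule.mem_sup.1 hy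
        obtain ⟨c, rfl⟩ := Submodule.mem_span_singleton.1 hb
        rw [map_add]
        refine Submodule.add_mem_sup (hV a ha) ?_
        have h1 : conj (c • (x : ℂ)) = (⟨conj (c : ℂ), hc _ c.2⟩ : K) • (x : ℂ) := by
          change conj ((c : ℂ) * x) = conj (c : ℂ) * x
          rw [map_mul, Complex.conj_ofReal]
        rw [h1]
        exact Submodule.smul_mem _ _ (Submodule.mem_span_singleton_self _)) hV e5 m hm'.le
    obtain ⟨p1, p2, p3, p4⟩ := (bad_iff hK W).1 f2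
    exact p4 (h W hW (f3 ▸ hm) (fun x hx => f1 (e6 hx)) p1 p2 p3 f4)

end cjs

/-! ### Scaling -/

section scale

/-- the lattice `c L` -/
def scl (L : PeriodPair) (c : ℂ) (hc : c ≠ 0) : PeriodPair where
  ω₁ := c * L.ω₁
  ω₂ := c * L.ω₂
  indep := by
    have h1 := L.indep.map' (LinearMap.mulLeft ℝ c) (by
      rw [LinearMap.ker_eq_bot]
      exact mul_right_injective₀ hc)
    have h2 : ![c * L.ω₁, c * L.ω₂] = ⇑(LinearMap.mulLeft ℝ c) ∘ ![L.ω₁, L.ω₂] := by
      funext i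
      fin_cases i <;> rfl
    rw [h2]
    exact h1

theorem Hm_scl (L : PeriodPair) {c : ℂ} (hc : c ≠ 0) : Hm L (scl L c hc) c where
  c0 := hc
  mem := fun x => by
    rw [PeriodPair.mem_lattice, PeriodPair.mem_lattice]
    constructor
    · rintro ⟨m, n, h⟩
      refine ⟨m, n, mul_left_cancel₀ hc ?_⟩
      rw [← h]
      change _ = (m : ℂ) * (c * L.ω₁) + n * (c * L.ω₂)
      ring
    · rintro ⟨m, n, h⟩
      refine ⟨m, n, ?_⟩
      rw [← h]
      change (m : ℂ) * (c * L.ω₁) + n * (c * L.ω₂) = _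
      ring

variable {L' : PeriodPair} {c : ℂ}

theorem kL_iff (h : Hm L L' c) {a : ℂ} : a ∈ kL L' ↔ a ∈ kL L := by
  have key : ∀ {L L' : PeriodPair} {c : ℂ}, Hm L L' c → a ∈ kL L → a ∈ kL L' := by
    rintro L L' c h ⟨n, hn, ha⟩
    refine ⟨n, hn, fun w hw => ?_⟩
    have hc := h.c0
    have h1 : c⁻¹ * w ∈ L.lattice := by
      rw [← h.mem, mul_inv_cancel_left₀ hc]
      exact hw
    have h2 := (h.mem _).2 (ha _ h1)
    have e : c * (n * a * (c⁻¹ * w)) = n * a * w := by field_simp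
    rwa [e] at h2
  exact ⟨key h.symm, key h⟩

theorem kL_eq (h : Hm L L' c) : kL L' = kL L := by
  ext x
  exact kL_iff h

/-- the scaled space -/
def sc (h : Hm L L' c) (P : Submodule (kL L) ℂ) : Submodule (kL L') ℂ where
  carrier := {x | c⁻¹ * x ∈ P}
  add_mem' := fun {a b} ha hb => by
    rw [Set.mem_ofPred_eq] at ha hb ⊢
    rw [mul_add]
    exact P.add_mem ha hb
  zero_mem' := by
    rw [Set.mem_ofPred_eq, mul_zero]
    exact P.zero_mem
  smul_mem' := fun a x hx => by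
    rw [Set.mem_ofPred_eq] at hx ⊢
    have h1 : c⁻¹ * (a • x) = (⟨a, (kL_iff h).1 a.2⟩ : kL L) • (c⁻¹ * x) := by
      change c⁻¹ * ((a : ℂ) * x) = (a : ℂ) * (c⁻¹ * x)
      ring
    rw [h1]
    exact P.smul_mem _ hx

theorem mem_sc {h : Hm L L' c} {P : Submodule (kL L) ℂ} {x : ℂ} :
    x ∈ sc h P ↔ c⁻¹ * x ∈ P := Iff.rfl

theorem sc_map (h : Hm L L' c) (P : Submodule (kL L) ℂ) :
    (sc h P).restrictScalars ℚ =
      (P.restrictScalars ℚ).map (LinearMap.mulLeft ℚ c) := by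
  ext z
  constructor
  · intro hz
    refine ⟨c⁻¹ * z, hz, ?_⟩
    exact mul_inv_cancel_left₀ h.c0 z
  · rintro ⟨y, hy, rfl⟩
    change c⁻¹ * (c * y) ∈ P
    rw [inv_mul_cancel_left₀ h.c0]
    exact hy

theorem Bad.scale {T : Submodule ℚ ℂ} {P : Submodule (kL L) ℂ} (hB : Bad L T P)
    (h : Hm L L' c) (hc : c ∈ M.closure (NK L T T P P)) : Bad L' T (sc h P) := by
  have hc0 := h.c0
  have := hB.fT
  have := hB.fP
  have fkL : FiniteDimensional ℚ (kL L) := Module.finite_of_finrank_pos (finrank_kL_pos L)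
  have f1 : Module.Finite ℚ P := Module.Finite.trans (R := ℚ) (kL L) P
  have f2 : FiniteDimensional ℚ (P.restrictScalars ℚ) := f1
  have f3 : FiniteDimensional ℚ ((sc h P).restrictScalars ℚ) := by
    rw [sc_map]
    infer_instance
  have f4 : Module.Finite ℚ (sc h P) := f3
  have f5 : FiniteDimensional (kL L') (sc h P) :=
    Module.Finite.of_restrictScalars_finite ℚ (kL L') (sc h P)
  have g1 : finrank ℚ (kL L) * finrank (kL L) P = finrank ℚ P :=
    Module.finrank_mul_finrank _ _ _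
  have g2 : finrank ℚ (kL L') * finrank (kL L') (sc h P) = finrank ℚ (sc h P) :=
    Module.finrank_mul_finrank _ _ _
  have g3 : finrank ℚ (sc h P) = finrank ℚ P := by
    have e1 : finrank ℚ ((sc h P).restrictScalars ℚ) = finrank ℚ (P.restrictScalars ℚ) := by
      rw [sc_map]
      exact (Submodule.equivMapOfInjective (LinearMap.mulLeft ℚ c) (mul_right_injective₀ hc0)
        (P.restrictScalars ℚ)).finrank_eq.symm
    exact e1
  have hk : finrank ℚ (kL L') = finrank ℚ (kL L) := by rw [kL_eq h]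
  have g4 : finrank (kL L') (sc h P) = finrank (kL L) P := by
    rw [hk, g3, ← g1] at g2
    exact Nat.eq_of_mul_eq_mul_left (finrank_kL_pos L) g2
  refine ⟨hB.fT, f5, hB.hT, ?_, ?_⟩
  · rintro x ⟨n, hn, hx⟩
    refine hB.hP ⟨n, hn, ?_⟩
    rw [← h.mem]
    have : c * (n * (c⁻¹ * x)) = n * x := by field_simp
    rw [this]
    exact hx
  · rw [g4]
    refine le_trans (add_le_add_left (rk_le_of_subset_cl ?_) _) hB.lt
    have hci : c⁻¹ ∈ M.closure (NK L T T P P) := cl_inv hc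
    have hpow : ∀ n : ℕ, (c ^ n)⁻¹ ∈ M.closure (NK L T T P P) := by
      intro n
      rw [← inv_pow]
      exact mem_cl.2 ((mem_cl.1 hci).pow n)
    have hn : ∀ {w : ℂ}, w ∉ L'.lattice → c⁻¹ * w ∉ L.lattice := by
      intro w hw hw'
      apply hw
      have := (h.mem _).2 hw'
      rwa [mul_inv_cancel_left₀ hc0] at this
    rintro x ((rfl | rfl) | ((hx | ⟨w, hw, rfl⟩) |
      (hx | (⟨w, ⟨hw, hwl⟩, rfl⟩ | ⟨w, ⟨hw, hwl⟩, rfl⟩))))
    · rw [h.g₂, div_eq_mul_inv]
      exact cl_mul (subset_cl _ (Or.inl (Or.inl rfl))) (hpow 4)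
    · rw [h.g₃, div_eq_mul_inv]
      exact cl_mul (subset_cl _ (Or.inl (Or.inr rfl))) (hpow 6)
    · exact subset_cl _ (Or.inr (Or.inl (Or.inl hx)))
    · exact subset_cl _ (Or.inr (Or.inl (Or.inr ⟨w, hw, rfl⟩)))
    · rw [← mul_inv_cancel_left₀ hc0 x]
      exact cl_mul hc (subset_cl _ (Or.inr (Or.inr (Or.inl hx))))
    · rw [← mul_inv_cancel_left₀ hc0 w, h.zeta, div_eq_mul_inv]
      exact cl_mul (subset_cl _ (Or.inr (Or.inr (Or.inr (Or.inl ⟨_, ⟨hw, hn hwl⟩, rfl⟩))))) hci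
    · rw [← mul_inv_cancel_left₀ hc0 w, h.wp, div_eq_mul_inv]
      exact cl_mul (subset_cl _ (Or.inr (Or.inr (Or.inr (Or.inr ⟨_, ⟨hw, hn hwl⟩, rfl⟩)))))
        (hpow 2)

/-- lattices with the period `2πi` are enough -/
theorem main₃ (K : PeriodPair → IntermediateField ℚ ℂ) (hf : ∀ L, FiniteDimensional ℚ (K L))
    (hK : ∀ L, kL L ≤ K L) (S : PeriodPair → Finset ℂ) (hS : ∀ L, ∀ x ∈ S L, ClosedForm L x)
    (D : PeriodPair → Set ℕ) (hD : ∀ L, (D L).Infinite) :
    (∀ L, Conjecture L) ↔ ∀ L : PeriodPair, L.ω₁ = 2 * Real.pi * Complex.I →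
      ∀ V : Submodule (K L) ℂ, FiniteDimensional (K L) V → finrank (K L) V ∈ D L →
      (S L : Set ℂ) ⊆ V → L.ω₁ ∈ V → L.ω₂ ∈ V → Ineq L V := by
  constructor
  · intro h L hL V h1 h2 h3 h4 h5
    have := hf L
    exact (main₁ (hK L) (S L) (hS L) (D L) (hD L)).1 (h L) V h1 h2 h3 (hL ▸ h4) h4 h5
  · intro h L
    by_contra hcon
    obtain ⟨T, P, hTP⟩ := not_conjecture_iff.1 hcon
    have hω : L.ω₁ ≠ 0 := ω₁_ne_zero L
    have hc0 : 2 * Real.pi * Complex.I / L.ω₁ ≠ 0 := div_ne_zero Complex.two_pi_I_ne_zero hω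
    have hcl : 2 * Real.pi * Complex.I / L.ω₁ ∈ M.closure (NK L T T P P) := by
      rw [div_eq_mul_inv]
      refine cl_mul (subset_cl _ (Or.inr (Or.inl (Or.inl (hTP.hT
        (Submodule.mem_span_singleton_self _)))))) (cl_inv (subset_cl _ (Or.inr (Or.inr (Or.inl
        (hTP.hP (lattice_le_P₂ L.ω₁_mem_lattice)))))))
    have h1 := hTP.scale (Hm_scl L hc0) hcl
    have hω' : (scl L _ hc0).ω₁ = 2 * Real.pi * Complex.I := by
      change 2 * Real.pi * Complex.I / L.ω₁ * L.ω₁ = _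
      exact div_mul_cancel₀ _ hω
    have := hf (scl L _ hc0)
    refine h1.not_conjecture ((main₁ (hK _) (S _) (hS _) (D _) (hD _)).2
      (fun V g1 g2 g3 g4 g5 g6 => h _ hω' V g1 g2 g3 g5 g6))

end scale

end Q88.ETO
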