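import Mathlib
import Pool.Agent.Y776.EtDefs
import Pool.Agent.Y685.Scale

/-!
# The predimension of the elliptico-toric conjecture

`NK L T T P P` is the set of the numbers `g₂, g₃, t, e^t (t ∈ T), p, ζ(p), ℘(p) (p ∈ P)`.
-/

set_option autoImplicit false

open Module
open scoped PeriodPair ComplexConjugate

noncomputable section

namespace Q88.ETO

open H667R3 Pool.Agent.W245.EB Pool.Agent.TH813.Ell
open Pool.Agent.W252 Pool.Agent.W669.Gel
open Pool.Agent.TH813.Core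
open Pool.Agent.TH813.Rel (DF MK mem_cl subset_cl rk_le_of_subset_cl adjoin_subset_cl
  cl_add cl_mul cl_inv cl_of_base)

variable {L : PeriodPair}

/-- the matroid of algebraic independence over `ℚ` -/
abbrev M : Matroid ℂ := MK ℚ

theorem ai_of_le {R K : Type} [Field R] [Field K] [Algebra R ℂ] [Algebra K ℂ]
    (h : ∀ r : R, ∃ s : K, algebraMap K ℂ s = algebraMap R ℂ r) {ι : Type} {x : ι → ℂ}
    (hx : AlgebraicIndependent K x) : AlgebraicIndependent R x := by
  have hK : Function.Injective (algebraMap K ℂ) := (algebraMap K ℂ).injective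
  choose f hf using h
  let F : R →+* K :=
    { toFun := f
      map_one' := hK (by rw [hf, map_one, map_one])
      map_mul' := fun a b => hK (by rw [hf, map_mul, map_mul, hf, hf])
      map_zero' := hK (by rw [hf, map_zero, map_zero])
      map_add' := fun a b => hK (by rw [hf, map_add, map_add, hf, hf]) }
  let : Algebra R K := F.toAlgebra
  have : IsScalarTower R K ℂ := IsScalarTower.of_algebraMap_eq (fun r => (hf r).symm)
  exact hx.restrictScalars F.injective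

theorem M_bot : MK (⊥ : IntermediateField ℚ ℂ) = M := by
  refine Matroid.ext_indep rfl (fun I _ => ?_)
  rw [AlgebraicIndependent.matroid_indep_iff, AlgebraicIndependent.matroid_indep_iff]
  constructor
  · intro h
    exact ai_of_le (R := ℚ) (K := (⊥ : IntermediateField ℚ ℂ))
      (fun r => ⟨algebraMap ℚ (⊥ : IntermediateField ℚ ℂ) r, rfl⟩) h
  · intro h
    exact ai_of_le (R := (⊥ : IntermediateField ℚ ℂ)) (K := ℚ) (fun r => by
      obtain ⟨q, hq⟩ := IntermediateField.mem_bot.1 r.2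
      exact ⟨q, hq⟩) h

/-- the algebraic closure is the common kernel of derivations -/
theorem mem_clQ {S : Set ℂ} {x : ℂ} :
    x ∈ M.closure S ↔ ∀ D : Derivation ℚ ℂ ℂ, (∀ y ∈ S, D y = 0) → D x = 0 := by
  rw [← M_bot, mem_cl_iff]
  constructor
  · intro h D hD
    refine h D (fun x hx => ?_) hD
    obtain ⟨q, rfl⟩ := IntermediateField.mem_bot.1 hx
    exact D.map_algebraMap q
  · intro h D _ hD
    exact h D hD

theorem cl_mono {X Y : Set ℂ} (h : X ⊆ Y) : M.closure X ⊆ M.closure Y :=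
  M.closure_subset_closure h

theorem cl_sub {X Y : Set ℂ} (h : X ⊆ M.closure Y) : M.closure X ⊆ M.closure Y :=
  M.closure_subset_closure_of_subset_closure h

theorem cl_alg {X : Set ℂ} {a : ℂ} (ha : IsAlgebraic ℚ a) : a ∈ M.closure X := by
  rw [mem_cl]
  exact ha.extendScalars (algebraMap ℚ (Algebra.adjoin ℚ X)).injective

theorem cl_neg {X : Set ℂ} {a : ℂ} (ha : a ∈ M.closure X) : -a ∈ M.closure X :=
  mem_cl.2 (mem_cl.1 ha).neg

/-- elements algebraic over `ℚ(X)` -/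
theorem cl_of_isAlgebraic {X : Set ℂ} {a : ℂ}
    (h : IsAlgebraic (IntermediateField.adjoin ℚ X) a) : a ∈ M.closure X := by
  obtain ⟨p, hp0, hp⟩ := h
  have h1 : a ∈ M.closure (M.closure X) := by
    rw [mem_cl]
    let f : (IntermediateField.adjoin ℚ X) →+* Algebra.adjoin ℚ (M.closure X) :=
      { toFun := fun y => ⟨y.1, Algebra.subset_adjoin (adjoin_subset_cl (subset_cl X) y.2)⟩
        map_one' := rfl
        map_mul' := fun _ _ => rfl
        map_zero' := rfl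
        map_add' := fun _ _ => rfl }
    refine ⟨p.map f, ?_, ?_⟩
    · rw [Polynomial.map_ne_zero_iff f.injective]
      exact hp0
    · rw [Polynomial.aeval_def, Polynomial.eval₂_map]
      rw [Polynomial.aeval_def] at hp
      exact hp
  rwa [M.closure_closure] at h1

/-- a derivation kills the numbers of the pair of spaces -/
theorem kill_NK {D : Derivation ℚ ℂ ℂ} {T : Submodule ℚ ℂ} {P : Submodule (kL L) ℂ} :
    (∀ x ∈ NK L T T P P, D x = 0) ↔ D L.g₂ = 0 ∧ D L.g₃ = 0 ∧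
      (∀ t ∈ T, D t = 0 ∧ dl D t = 0) ∧ ∀ p ∈ P, D p = 0 ∧ om L D p = 0 ∧ et L D p = 0 := by
  constructor
  · intro hD
    have e2 : D L.g₂ = 0 := hD _ (Or.inl (Or.inl rfl))
    have e3 : D L.g₃ = 0 := hD _ (Or.inl (Or.inr rfl))
    have h2 := (NK_iff e2 e3 T T (le_refl P)).1 hD
    refine ⟨e2, e3, fun t ht => ⟨h2 t (Or.inl (Or.inl ht)), ?_⟩, fun a ha => ?_⟩
    · exact dlog_eq_zero.2 (h2 _ (Or.inl (Or.inr ⟨t, ht, rfl⟩)))
    have hom : om L D a = 0 := om_of_killed (fun hz' =>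
        h2 _ (Or.inr (Or.inr (Or.inr ⟨a, ⟨ha, hz'⟩, rfl⟩))))
    refine ⟨h2 a (Or.inr (Or.inl ha)), hom, ?_⟩
    unfold et
    rw [hom, mul_zero, add_zero]
    exact h2 _ (Or.inr (Or.inr (Or.inl ⟨a, ha, rfl⟩)))
  · rintro ⟨e2, e3, h4, h7⟩ x hx
    refine (NK_iff e2 e3 T T (le_refl P)).2 ?_ x hx
    rintro x ((hx | ⟨w, hw, rfl⟩) | (hx | (⟨w, hw, rfl⟩ | ⟨w, ⟨hw, hwl⟩, rfl⟩)))
    · exact (h4 x hx).1
    · exact dlog_eq_zero.1 (h4 w hw).2
    · exact (h7 x hx).1
    · exact zt_killed (h7 w hw).2.1 (h7 w hw).2.2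
    · exact (wp_killed e2 e3 (h7 w hw).2.1 hwl).1

theorem kill_sup {D : Derivation ℚ ℂ ℂ} {T T' : Submodule ℚ ℂ} {P P' : Submodule (kL L) ℂ}
    (h2 : D L.g₂ = 0) (h3 : D L.g₃ = 0)
    (hT : ∀ t ∈ T, D t = 0 ∧ dl D t = 0) (hT' : ∀ t ∈ T', D t = 0 ∧ dl D t = 0)
    (hP : ∀ p ∈ P, D p = 0 ∧ om L D p = 0 ∧ et L D p = 0)
    (hP' : ∀ p ∈ P', D p = 0 ∧ om L D p = 0 ∧ et L D p = 0) :
    ∀ x ∈ NK L (T ⊔ T') (T ⊔ T') (P ⊔ P') (P ⊔ P'), D x = 0 := by
  obtain ⟨κ, hE⟩ := exists_eig L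
  rw [kill_NK]
  refine ⟨h2, h3, fun t ht => ?_, fun p hp => ?_⟩
  · have h4 : T ⊔ T' ≤ LinearMap.ker (D : ℂ →ₗ[ℚ] ℂ) :=
      sup_le (fun t ht => (hT t ht).1) (fun t ht => (hT' t ht).1)
    have h5 : T ⊔ T' ≤ LinearMap.ker (dl D) :=
      sup_le (fun t ht => (hT t ht).2) (fun t ht => (hT' t ht).2)
    exact ⟨h4 ht, h5 ht⟩
  · have h6 : P ⊔ P' ≤ ZK hE D h2 h3 := sup_le (fun p hp => hP p hp) (fun p hp => hP' p hp)
    exact h6 hp

theorem kill_spanT {D : Derivation ℚ ℂ ℂ} {x : ℂ} (hx : D x = 0) (hx' : D (Complex.exp x) = 0) :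
    ∀ t ∈ Submodule.span ℚ ({x} : Set ℂ), D t = 0 ∧ dl D t = 0 := by
  intro t ht
  obtain ⟨q, rfl⟩ := Submodule.mem_span_singleton.1 ht
  refine ⟨?_, ?_⟩
  · have h1 := (D : ℂ →ₗ[ℚ] ℂ).map_smul q x
    change (D : ℂ →ₗ[ℚ] ℂ) (q • x) = 0
    rw [h1]
    change q • D x = 0
    rw [hx, smul_zero]
  · rw [map_smul, dl_apply, dlog_eq_zero.2 hx', smul_zero]

theorem kill_spanP {D : Derivation ℚ ℂ ℂ} (h2 : D L.g₂ = 0) (h3 : D L.g₃ = 0) {x : ℂ}
    (hxL : x ∉ L.lattice) (hx : D x = 0) (hx' : D (℘[L] x) = 0) (hx'' : D (zeta L x) = 0) :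
    ∀ p ∈ Submodule.span (kL L) ({x} : Set ℂ), D p = 0 ∧ om L D p = 0 ∧ et L D p = 0 := by
  obtain ⟨κ, hE⟩ := exists_eig L
  have h6 : Submodule.span (kL L) ({x} : Set ℂ) ≤ ZK hE D h2 h3 := by
    rw [Submodule.span_singleton_le_iff_mem]
    have hom : om L D x = 0 := om_of_killed (fun _ => hx')
    refine ⟨hx, hom, ?_⟩
    unfold et
    rw [hom, mul_zero, add_zero, zt_of_notMem hxL]
    exact hx''
  exact fun p hp => h6 hp

theorem NK_sup_sub (T T' : Submodule ℚ ℂ) (P P' : Submodule (kL L) ℂ) :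
    NK L (T ⊔ T') (T ⊔ T') (P ⊔ P') (P ⊔ P') ⊆
      M.closure (NK L T T P P ∪ NK L T' T' P' P') := by
  intro x hx
  rw [mem_clQ]
  intro D hD
  obtain ⟨h2, h3, h4, h5⟩ := kill_NK.1 (fun y hy => hD y (Or.inl hy))
  obtain ⟨-, -, h4', h5'⟩ := kill_NK.1 (fun y hy => hD y (Or.inr hy))
  exact kill_sup h2 h3 h4 h4' h5 h5' x hx

theorem NK_addT {X : Set ℂ} {T : Submodule ℚ ℂ} {P : Submodule (kL L) ℂ}
    (h : NK L T T P P ⊆ M.closure X) {x : ℂ} (hx : x ∈ M.closure X)
    (hx' : Complex.exp x ∈ M.closure X) :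
    NK L (T ⊔ Submodule.span ℚ {x}) (T ⊔ Submodule.span ℚ {x}) P P ⊆ M.closure X := by
  intro y hy
  rw [mem_clQ]
  intro D hD
  have hcl : ∀ z ∈ M.closure X, D z = 0 := fun z hz => mem_clQ.1 hz D hD
  obtain ⟨h2, h3, h4, h5⟩ := kill_NK.1 (fun y hy => hcl y (h hy))
  have h6 := kill_sup h2 h3 h4 (kill_spanT (hcl _ hx) (hcl _ hx')) h5 h5
  rw [sup_idem] at h6
  exact h6 y hy

theorem NK_addP {X : Set ℂ} {T : Submodule ℚ ℂ} {P : Submodule (kL L) ℂ}
    (h : NK L T T P P ⊆ M.closure X) {x : ℂ} (hxL : x ∉ L.lattice) (hx : x ∈ M.closure X)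
    (hx' : ℘[L] x ∈ M.closure X) (hx'' : zeta L x ∈ M.closure X) :
    NK L T T (P ⊔ Submodule.span (kL L) {x}) (P ⊔ Submodule.span (kL L) {x}) ⊆ M.closure X := by
  intro y hy
  rw [mem_clQ]
  intro D hD
  have hcl : ∀ z ∈ M.closure X, D z = 0 := fun z hz => mem_clQ.1 hz D hD
  obtain ⟨h2, h3, h4, h5⟩ := kill_NK.1 (fun y hy => hcl y (h hy))
  have h6 := kill_sup h2 h3 h4 h4 h5 (kill_spanP h2 h3 hxL (hcl _ hx) (hcl _ hx') (hcl _ hx''))
  rw [sup_idem] at h6
  exact h6 y hy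

/-- a failure of the conjecture, for spaces containing the periods -/
structure Bad (L : PeriodPair) (T : Submodule ℚ ℂ) (P : Submodule (kL L) ℂ) : Prop where
  fT : FiniteDimensional ℚ T
  fP : FiniteDimensional (kL L) P
  hT : P₁ ≤ T
  hP : P₂ L ≤ P
  lt : M.eRk (NK L T T P P) + ((2 : ℕ) : ℕ∞) ≤ ((finrank ℚ T + 2 * finrank (kL L) P : ℕ) : ℕ∞)

theorem NK_subset {T T' : Submodule ℚ ℂ} {P P' : Submodule (kL L) ℂ} (h : T ≤ T') (h' : P ≤ P') :
    NK L T T P P ⊆ NK L T' T' P' P' := NK_mono h h h' h'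

theorem finrank_add_span {k : Type*} [Field k] [Module k ℂ] (V : Submodule k ℂ)
    [FiniteDimensional k V] {x : ℂ} (hx : x ∉ V) :
    finrank k (V ⊔ Submodule.span k {x} : Submodule k ℂ) = finrank k V + 1 := by
  have h0 : x ≠ 0 := by
    rintro rfl
    exact hx V.zero_mem
  have h1 : V ⊓ Submodule.span k {x} = ⊥ := by
    rw [eq_bot_iff]
    rintro y ⟨hy1, hy2⟩
    obtain ⟨c, rfl⟩ := Submodule.mem_span_singleton.mp hy2
    by_cases hc : c = 0
    · simp [hc]
    · exfalso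
      apply hx
      have := V.smul_mem c⁻¹ hy1
      rwa [smul_smul, inv_mul_cancel₀ hc, one_smul] at this
  have h2 := Submodule.finrank_sup_add_finrank_inf_eq V (Submodule.span k {x})
  rw [h1, finrank_bot, finrank_span_singleton h0] at h2
  omega

theorem sup_span_of_mem {k : Type*} [Field k] [Module k ℂ] {V : Submodule k ℂ} {x : ℂ}
    (hx : x ∈ V) : V ⊔ Submodule.span k {x} = V := by
  apply sup_eq_left.mpr
  rw [Submodule.span_singleton_le_iff_mem]
  exact hx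

variable {T : Submodule ℚ ℂ} {P : Submodule (kL L) ℂ}

/-- adding a number to the exponents -/
theorem Bad.stepT (hV : Bad L T P) {x : ℂ} (hx : x ∈ M.closure (NK L T T P P) ∨
    Complex.exp x ∈ M.closure (insert x (NK L T T P P))) :
    Bad L (T ⊔ Submodule.span ℚ {x}) P := by
  have := hV.fT
  have := hV.fP
  have hf : FiniteDimensional ℚ (T ⊔ Submodule.span ℚ {x} : Submodule ℚ ℂ) :=
    Submodule.finiteDimensional_sup _ _
  refine ⟨hf, hV.fP, hV.hT.trans le_sup_left, hV.hP, ?_⟩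
  by_cases hxT : x ∈ T
  · rw [sup_span_of_mem hxT]
    exact hV.lt
  · have key : ∃ y : ℂ, NK L (T ⊔ Submodule.span ℚ {x}) (T ⊔ Submodule.span ℚ {x}) P P ⊆
        M.closure (insert y (NK L T T P P)) := by
      rcases hx with hx | hx
      · exact ⟨Complex.exp x, NK_addT ((Set.subset_insert _ _).trans (subset_cl _))
          (cl_mono (Set.subset_insert _ _) hx) (subset_cl _ (Set.mem_insert _ _))⟩
      · exact ⟨x, NK_addT ((Set.subset_insert _ _).trans (subset_cl _))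
          (subset_cl _ (Set.mem_insert _ _)) hx⟩
    obtain ⟨y, hy⟩ := key
    have h1 : M.eRk (NK L (T ⊔ Submodule.span ℚ {x}) (T ⊔ Submodule.span ℚ {x}) P P) ≤
        M.eRk (NK L T T P P) + 1 := (rk_le_of_subset_cl hy).trans (M.eRk_insert_le_add_one _ _)
    rw [finrank_add_span T hxT]
    calc M.eRk (NK L (T ⊔ Submodule.span ℚ {x}) (T ⊔ Submodule.span ℚ {x}) P P) + ((2 : ℕ) : ℕ∞)
        ≤ M.eRk (NK L T T P P) + 1 + ((2 : ℕ) : ℕ∞) := add_le_add_left h1 _
      _ = M.eRk (NK L T T P P) + ((2 : ℕ) : ℕ∞) + 1 := by ring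
      _ ≤ ((finrank ℚ T + 2 * finrank (kL L) P : ℕ) : ℕ∞) + 1 := add_le_add_left hV.lt _
      _ = ((finrank ℚ T + 1 + 2 * finrank (kL L) P : ℕ) : ℕ∞) := by push_cast; ring

/-- adding a number to the points -/
theorem Bad.stepP (hV : Bad L T P) {x : ℂ} (hx : x ∈ M.closure (NK L T T P P) ∨
    ℘[L] x ∈ M.closure (insert x (NK L T T P P)) ∨
    zeta L x ∈ M.closure (insert x (insert (℘[L] x) (NK L T T P P)))) :
    Bad L T (P ⊔ Submodule.span (kL L) {x}) := by
  have := hV.fT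
  have := hV.fP
  have hf : FiniteDimensional (kL L) (P ⊔ Submodule.span (kL L) {x} : Submodule (kL L) ℂ) :=
    Submodule.finiteDimensional_sup _ _
  refine ⟨hV.fT, hf, hV.hT, hV.hP.trans le_sup_left, ?_⟩
  by_cases hxP : x ∈ P
  · rw [sup_span_of_mem hxP]
    exact hV.lt
  · have hxL : x ∉ L.lattice := fun h => hxP (hV.hP (lattice_le_P₂ h))
    have key : ∃ y z : ℂ, NK L T T (P ⊔ Submodule.span (kL L) {x})
        (P ⊔ Submodule.span (kL L) {x}) ⊆ M.closure (insert y (insert z (NK L T T P P))) := by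
      have hin : ∀ y z : ℂ, NK L T T P P ⊆ insert y (insert z (NK L T T P P)) := fun y z =>
        (Set.subset_insert _ _).trans (Set.subset_insert _ _)
      rcases hx with hx | hx | hx
      · exact ⟨℘[L] x, zeta L x, NK_addP ((hin _ _).trans (subset_cl _)) hxL
          (cl_mono (hin _ _) hx) (subset_cl _ (Set.mem_insert _ _))
          (subset_cl _ (Or.inr (Set.mem_insert _ _)))⟩
      · exact ⟨x, zeta L x, NK_addP ((hin _ _).trans (subset_cl _)) hxL
          (subset_cl _ (Set.mem_insert _ _))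
          (cl_mono (Set.insert_subset_insert (Set.subset_insert _ _)) hx)
          (subset_cl _ (Or.inr (Set.mem_insert _ _)))⟩
      · exact ⟨x, ℘[L] x, NK_addP ((hin _ _).trans (subset_cl _)) hxL
          (subset_cl _ (Set.mem_insert _ _)) (subset_cl _ (Or.inr (Set.mem_insert _ _))) hx⟩
    obtain ⟨y, z, hy⟩ := key
    have h1 : M.eRk (NK L T T (P ⊔ Submodule.span (kL L) {x}) (P ⊔ Submodule.span (kL L) {x})) ≤
        M.eRk (NK L T T P P) + 1 + 1 := (rk_le_of_subset_cl hy).trans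
          ((M.eRk_insert_le_add_one _ _).trans (add_le_add_left (M.eRk_insert_le_add_one _ _) _))
    rw [finrank_add_span P hxP]
    calc M.eRk (NK L T T (P ⊔ Submodule.span (kL L) {x}) (P ⊔ Submodule.span (kL L) {x})) +
          ((2 : ℕ) : ℕ∞)
        ≤ M.eRk (NK L T T P P) + 1 + 1 + ((2 : ℕ) : ℕ∞) := add_le_add_left h1 _
      _ = M.eRk (NK L T T P P) + ((2 : ℕ) : ℕ∞) + 1 + 1 := by ring
      _ ≤ ((finrank ℚ T + 2 * finrank (kL L) P : ℕ) : ℕ∞) + 1 + 1 :=
          add_le_add_left (add_le_add_left hV.lt _) _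
      _ = ((finrank ℚ T + 2 * (finrank (kL L) P + 1) : ℕ) : ℕ∞) := by push_cast; ring

/-- adding finitely many numbers algebraic over the numbers of the pair -/
theorem Bad.absorb (hV : Bad L T P) {T' : Submodule ℚ ℂ} {P' : Submodule (kL L) ℂ}
    (hT : T ≤ T') (hP : P ≤ P') [FiniteDimensional ℚ T'] [FiniteDimensional (kL L) P']
    (h₁ : (T' : Set ℂ) ⊆ M.closure (NK L T T P P)) (h₂ : (P' : Set ℂ) ⊆ M.closure (NK L T T P P)) :
    Bad L T' P' := by
  classical
  obtain ⟨t, ht⟩ : T'.FG := Module.Finite.iff_fg.mp inferInstance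
  obtain ⟨p, hp⟩ : P'.FG := Module.Finite.iff_fg.mp inferInstance
  have key₁ : ∀ u : Finset ℂ, (u : Set ℂ) ⊆ M.closure (NK L T T P P) →
      Bad L (T ⊔ Submodule.span ℚ (u : Set ℂ)) P := by
    intro u
    induction u using Finset.induction_on with
    | empty => intro _; simpa using hV
    | insert a u ha ih =>
      intro hu
      have h1 := ih (fun y hy => hu (by simp only [Finset.coe_insert]; exact Or.inr hy))
      have h2 := h1.stepT (x := a) (Or.inl (cl_mono (NK_subset le_sup_left le_rfl)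
        (hu (by simp))))
      have h3 : T ⊔ Submodule.span ℚ ((insert a u : Finset ℂ) : Set ℂ)
          = T ⊔ Submodule.span ℚ (u : Set ℂ) ⊔ Submodule.span ℚ {a} := by
        rw [Finset.coe_insert, Submodule.span_insert, sup_assoc, sup_comm (Submodule.span ℚ {a})]
      rw [h3]
      exact h2
  have h4 := key₁ t (by
    intro y hy
    apply h₁
    rw [← ht]
    exact Submodule.subset_span hy)
  rw [ht, sup_eq_right.mpr hT] at h4
  have key₂ : ∀ u : Finset ℂ, (u : Set ℂ) ⊆ M.closure (NK L T T P P) →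
      Bad L T' (P ⊔ Submodule.span (kL L) (u : Set ℂ)) := by
    intro u
    induction u using Finset.induction_on with
    | empty => intro _; simpa using h4
    | insert a u ha ih =>
      intro hu
      have h1 := ih (fun y hy => hu (by simp only [Finset.coe_insert]; exact Or.inr hy))
      have h2 := h1.stepP (x := a) (Or.inl (cl_mono (NK_subset hT le_sup_left)
        (hu (by simp))))
      have h3 : P ⊔ Submodule.span (kL L) ((insert a u : Finset ℂ) : Set ℂ)
          = P ⊔ Submodule.span (kL L) (u : Set ℂ) ⊔ Submodule.span (kL L) {a} := by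
        rw [Finset.coe_insert, Submodule.span_insert, sup_assoc,
          sup_comm (Submodule.span (kL L) {a})]
      rw [h3]
      exact h2
  have h5 := key₂ p (by
    intro y hy
    apply h₂
    rw [← hp]
    exact Submodule.subset_span hy)
  rw [hp, sup_eq_right.mpr hP] at h5
  exact h5

theorem Bad.inf_or_sup {T' : Submodule ℚ ℂ} {P' : Submodule (kL L) ℂ} (hV : Bad L T P)
    (hW : Bad L T' P') : Bad L (T ⊓ T') (P ⊓ P') ∨ Bad L (T ⊔ T') (P ⊔ P') := by
  have := hV.fT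
  have := hV.fP
  have := hW.fT
  have := hW.fP
  have hf1 : FiniteDimensional ℚ (T ⊓ T' : Submodule ℚ ℂ) :=
    Submodule.finiteDimensional_inf_left _ _
  have hf2 : FiniteDimensional ℚ (T ⊔ T' : Submodule ℚ ℂ) := Submodule.finiteDimensional_sup _ _
  have hf3 : FiniteDimensional (kL L) (P ⊓ P' : Submodule (kL L) ℂ) :=
    Submodule.finiteDimensional_inf_left _ _
  have hf4 : FiniteDimensional (kL L) (P ⊔ P' : Submodule (kL L) ℂ) :=
    Submodule.finiteDimensional_sup _ _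
  by_contra hcon
  rw [not_or] at hcon
  obtain ⟨h1, h2⟩ := hcon
  set A := M.eRk (NK L (T ⊓ T') (T ⊓ T') (P ⊓ P') (P ⊓ P')) with hA
  set B := M.eRk (NK L (T ⊔ T') (T ⊔ T') (P ⊔ P') (P ⊔ P')) with hB
  have h1' : ¬ (A + ((2 : ℕ) : ℕ∞) ≤ ((finrank ℚ (T ⊓ T' : Submodule ℚ ℂ) +
      2 * finrank (kL L) (P ⊓ P' : Submodule (kL L) ℂ) : ℕ) : ℕ∞)) :=
    fun h => h1 ⟨hf1, hf3, le_inf hV.hT hW.hT, le_inf hV.hP hW.hP, h⟩
  have h2' : ¬ (B + ((2 : ℕ) : ℕ∞) ≤ ((finrank ℚ (T ⊔ T' : Submodule ℚ ℂ) +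
      2 * finrank (kL L) (P ⊔ P' : Submodule (kL L) ℂ) : ℕ) : ℕ∞)) :=
    fun h => h2 ⟨hf2, hf4, hV.hT.trans le_sup_left, hV.hP.trans le_sup_left, h⟩
  have h3 : A + B ≤ M.eRk (NK L T T P P) + M.eRk (NK L T' T' P' P') := by
    have e1 : A ≤ M.eRk (NK L T T P P ∩ NK L T' T' P' P') := by
      apply M.eRk_mono
      exact Set.subset_inter (NK_subset inf_le_left inf_le_left)
        (NK_subset inf_le_right inf_le_right)
    have e2 : B ≤ M.eRk (NK L T T P P ∪ NK L T' T' P' P') :=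
      rk_le_of_subset_cl (NK_sup_sub T T' P P')
    exact (add_le_add e1 e2).trans (M.eRk_inter_add_eRk_union_le _ _)
  have h4 := Submodule.finrank_sup_add_finrank_inf_eq T T'
  have h5 := Submodule.finrank_sup_add_finrank_inf_eq P P'
  have f1 := hV.lt
  have f2 := hW.lt
  have t1 : M.eRk (NK L T T P P) ≠ ⊤ := by
    intro h
    rw [h, top_add, top_le_iff] at f1
    exact ENat.natCast_ne_top _ f1
  have t2 : M.eRk (NK L T' T' P' P') ≠ ⊤ := by
    intro h
    rw [h, top_add, top_le_iff] at f2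
    exact ENat.natCast_ne_top _ f2
  obtain ⟨r, hr⟩ := ENat.ne_top_iff_exists.1 t1
  obtain ⟨r', hr'⟩ := ENat.ne_top_iff_exists.1 t2
  rw [← hr, ← hr'] at h3
  rw [← hr] at f1
  rw [← hr'] at f2
  have t3 : A ≠ ⊤ := by
    intro h
    rw [h, top_add, top_le_iff] at h3
    exact ENat.natCast_ne_top (r + r') (by push_cast; exact h3)
  have t4 : B ≠ ⊤ := by
    intro h
    rw [h, add_top, top_le_iff] at h3
    exact ENat.natCast_ne_top (r + r') (by push_cast; exact h3)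
  obtain ⟨a, ha⟩ := ENat.ne_top_iff_exists.1 t3
  obtain ⟨b, hb⟩ := ENat.ne_top_iff_exists.1 t4
  rw [← ha] at h1' h3
  rw [← hb] at h2' h3
  norm_cast at h1' h2' h3 f1 f2
  omega

end Q88.ETO
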