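import Pool.Agent.Q88.ETO.A

/-!
# The conjecture and its failures; spaces over a number field
-/

set_option autoImplicit false

open Module
open scoped PeriodPair ComplexConjugate

noncomputable section

namespace Q88.ETO

open H667R3 Pool.Agent.W245.EB Pool.Agent.TH813.Ell
open Pool.Agent.W252 Pool.Agent.W669.Gel
open Pool.Agent.TH813.Core
open Pool.Agent.TH813.Rel (DF MK mem_cl subset_cl rk_le_of_subset_cl adjoin_subset_cl
  cl_add cl_mul cl_inv cl_of_base toENat_trdeg)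
open Pool.Agent.Y776.Et (Conjecture Holds gen trd dimMod T₀ P₀ ζ k)

variable {L : PeriodPair}

theorem trd_iff {S : Set ℂ} {N m : ℕ} : ((N : ℕ) : Cardinal) ≤ trd ℚ S + (m : Cardinal) ↔
    ((N : ℕ) : ℕ∞) ≤ M.eRk S + (m : ℕ∞) := by
  have h1 := toENat_trdeg (k := ℚ) S
  have h2 : M.eRk S + (m : ℕ∞) = Cardinal.toENat (trd ℚ S + (m : Cardinal)) := by
    rw [map_add, Pool.Agent.Y776.Et.trd, h1, map_natCast]
  rw [h2, Cardinal.natCast_le_toENat]

theorem trd_iff' {S : Set ℂ} {N : ℕ} : ((N : ℕ) : Cardinal) ≤ trd ℚ S ↔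
    ((N : ℕ) : ℕ∞) ≤ M.eRk S := by
  have := trd_iff (S := S) (N := N) (m := 0)
  simpa using this

/-- the span modulo a subspace -/
theorem finrank_mod {K : Type*} [Field K] [Module K ℂ] (A : Submodule K ℂ)
    [FiniteDimensional K A] {n : ℕ} (z : Fin n → ℂ) :
    finrank K (Submodule.span K (Set.range (fun i => A.mkQ (z i)))) + finrank K A =
      finrank K (A ⊔ Submodule.span K (Set.range z) : Submodule K ℂ) := by
  have h0 : FiniteDimensional K (Submodule.span K (Set.range z)) :=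
    FiniteDimensional.span_of_finite K (Set.finite_range z)
  set X := A ⊔ Submodule.span K (Set.range z) with hX
  have h1 := (A.mkQ ∘ₗ X.subtype).finrank_range_add_finrank_ker
  have h2 : LinearMap.range (A.mkQ ∘ₗ X.subtype) =
      Submodule.span K (Set.range (fun i => A.mkQ (z i))) := by
    rw [LinearMap.range_comp, Submodule.range_subtype, hX, Submodule.map_sup,
      Submodule.mkQ_map_self, bot_sup_eq, Submodule.map_span, ← Set.range_comp]
    rfl
  have h3 : LinearMap.ker (A.mkQ ∘ₗ X.subtype) = A.comap X.subtype := by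
    rw [LinearMap.ker_comp, Submodule.ker_mkQ]
  have h4 : finrank K (A.comap X.subtype) = finrank K A :=
    (Submodule.comapSubtypeEquivOfLe le_sup_left).finrank_eq
  rw [h2, h3, h4] at h1
  exact h1

/-- a failure for tuples gives a failure for spaces -/
theorem exists_bad {s n : ℕ} {t : Fin s → ℂ} {p : Fin n → ℂ} (hp : ∀ i, p i ∉ L.lattice)
    (h : ¬ Holds L t p) : ∃ T P, Bad L T P := by
  have e1 := finrank_mod P₁ t
  have e2 := finrank_mod (P₂ L) p
  have f1 : FiniteDimensional ℚ (Submodule.span ℚ (Set.range t)) :=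
    FiniteDimensional.span_of_finite ℚ (Set.finite_range t)
  have f2 : FiniteDimensional (kL L) (Submodule.span (kL L) (Set.range p)) :=
    FiniteDimensional.span_of_finite (kL L) (Set.finite_range p)
  refine ⟨P₁ ⊔ Submodule.span ℚ (Set.range t), P₂ L ⊔ Submodule.span (kL L) (Set.range p),
    Submodule.finiteDimensional_sup _ _, Submodule.finiteDimensional_sup _ _, le_sup_left,
    le_sup_left, ?_⟩
  unfold Holds at h
  rw [trd_iff', not_le] at h
  have h3 : M.eRk (NK L (P₁ ⊔ Submodule.span ℚ (Set.range t))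
      (P₁ ⊔ Submodule.span ℚ (Set.range t)) (P₂ L ⊔ Submodule.span (kL L) (Set.range p))
      (P₂ L ⊔ Submodule.span (kL L) (Set.range p))) ≤ M.eRk (gen L t p) := by
    refine rk_le_of_subset_cl (fun x hx => ?_)
    rw [mem_clQ]
    intro D hD
    have h2 : D L.g₂ = 0 := hD _ (Or.inl (Or.inl (Or.inl rfl)))
    have h3 : D L.g₃ = 0 := hD _ (Or.inl (Or.inl (Or.inr rfl)))
    obtain ⟨k1, k2⟩ := per_killed h2 h3
      (hD _ (Or.inl (Or.inr (Or.inl rfl)))) (hD _ (Or.inl (Or.inr (Or.inr (Or.inl rfl)))))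
      (hD _ (Or.inl (Or.inr (Or.inr (Or.inr (Or.inl rfl))))))
      (hD _ (Or.inl (Or.inr (Or.inr (Or.inr (Or.inr rfl))))))
    obtain ⟨κ, hE⟩ := exists_eig L
    refine kill_sup h2 h3 k1 (fun u hu => ?_) k2 (fun u hu => ?_) x hx
    · have h4 : Submodule.span ℚ (Set.range t) ≤ LinearMap.ker (D : ℂ →ₗ[ℚ] ℂ) := by
        rw [Submodule.span_le]
        rintro _ ⟨i, rfl⟩
        exact hD _ (Or.inr (Or.inl (Or.inl ⟨i, rfl⟩)))
      have h5 : Submodule.span ℚ (Set.range t) ≤ LinearMap.ker (dl D) := by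
        rw [Submodule.span_le]
        rintro _ ⟨i, rfl⟩
        exact dlog_eq_zero.2 (hD _ (Or.inr (Or.inl (Or.inr ⟨_, ⟨i, rfl⟩, rfl⟩))))
      exact ⟨h4 hu, h5 hu⟩
    · have h6 : Submodule.span (kL L) (Set.range p) ≤ ZK hE D h2 h3 := by
        rw [Submodule.span_le]
        rintro _ ⟨i, rfl⟩
        have hom : om L D (p i) = 0 := om_of_killed (fun _ =>
          hD _ (Or.inr (Or.inr (Or.inr (Or.inl ⟨_, ⟨i, rfl⟩, rfl⟩)))))
        refine ⟨hD _ (Or.inr (Or.inr (Or.inl ⟨i, rfl⟩))), hom, ?_⟩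
        unfold et
        rw [hom, mul_zero, add_zero, zt_of_notMem (hp i)]
        exact hD _ (Or.inr (Or.inr (Or.inr (Or.inr ⟨_, ⟨i, rfl⟩, rfl⟩))))
      exact h6 hu
  have h4 := lt_of_le_of_lt h3 h
  have t1 := h4.ne_top
  obtain ⟨r, hr⟩ := ENat.ne_top_iff_exists.1 t1
  rw [← hr] at h4 ⊢
  have h5 : r < dimMod T₀ t + 4 / finrank ℚ (kL L) + 2 * dimMod (P₀ L) p := by
    exact_mod_cast h4
  rw [four_div] at h5
  rw [finrank_P₁] at e1
  have e1' : dimMod T₀ t + 1 = finrank ℚ (P₁ ⊔ Submodule.span ℚ (Set.range t) :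
    Submodule ℚ ℂ) := e1
  have e2' : dimMod (P₀ L) p + finrank (kL L) (P₂ L) = finrank (kL L) (P₂ L ⊔
    Submodule.span (kL L) (Set.range p) : Submodule (kL L) ℂ) := e2
  rw [← e1', ← e2']
  norm_cast
  omega

theorem half_mem {P : Submodule (kL L) ℂ} (hP : P₂ L ≤ P) {w : ℂ} (hw : w ∈ L.lattice) :
    w / 2 ∈ P := hP ⟨2, two_pos, by
  have : ((2 : ℕ) : ℂ) * (w / 2) = w := by push_cast; ring
  rw [this]; exact hw⟩

/-- a failure for spaces is a failure of the conjecture -/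
theorem Bad.not_conjecture {T : Submodule ℚ ℂ} {P : Submodule (kL L) ℂ} (h : Bad L T P) :
    ¬ Conjecture L := by
  intro hC
  have := h.fT
  have := h.fP
  obtain ⟨Y₁, hYX₁, hYA₁, hYd₁⟩ := exists_rel_compl h.hT
  obtain ⟨Y₂, hYX₂, hYA₂, hYd₂⟩ := exists_rel_compl h.hP
  have : FiniteDimensional ℚ Y₁ := Submodule.finiteDimensional_of_le hYX₁
  have : FiniteDimensional (kL L) Y₂ := Submodule.finiteDimensional_of_le hYX₂
  let b₁ := finBasis ℚ Y₁
  obtain ⟨p, hpl, hpY, hpL⟩ := exists_basis_off (L := L) Y₂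
  have hs₁ : Submodule.span ℚ (Set.range (fun i => (b₁ i : ℂ))) = Y₁ := by
    have h3 : Set.range (fun i => (b₁ i : ℂ)) = Y₁.subtype '' Set.range b₁ := by
      rw [← Set.range_comp]
      rfl
    rw [h3, Submodule.span_image, b₁.span_eq, Submodule.map_top, Submodule.range_subtype]
  have hs₂ : Submodule.span (kL L) (Set.range p) = Y₂ := by
    apply Submodule.eq_of_le_of_finrank_eq
    · rw [Submodule.span_le]
      rintro _ ⟨i, rfl⟩
      exact hpY i
    · rw [finrank_span_eq_card hpl, Fintype.card_fin]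
  have e1 := finrank_mod P₁ (fun i => (b₁ i : ℂ))
  have e2 := finrank_mod (P₂ L) p
  rw [hs₁, sup_comm] at e1
  rw [hs₂, sup_comm] at e2
  have g1 := Submodule.finrank_sup_add_finrank_inf_eq Y₁ P₁
  have g2 := Submodule.finrank_sup_add_finrank_inf_eq Y₂ (P₂ L)
  rw [hYA₁, finrank_bot] at g1
  rw [hYA₂, finrank_bot] at g2
  have h3 := hC _ _ (fun i => (b₁ i : ℂ)) p hpL
  unfold Holds at h3
  rw [trd_iff'] at h3
  have hPl : ∀ w ∈ L.lattice, w ∈ P := fun w hw => h.hP (lattice_le_P₂ hw)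
  have hsub : gen L (fun i => (b₁ i : ℂ)) p ⊆ M.closure (NK L T T P P) := by
    intro x hx
    have hz : ∀ w ∈ P, w ∉ L.lattice → zeta L w ∈ M.closure (NK L T T P P) := fun w hw hw' =>
      subset_cl _ (Or.inr (Or.inr (Or.inr (Or.inl ⟨w, ⟨hw, hw'⟩, rfl⟩))))
    have h2 : (2 : ℂ) ∈ M.closure (NK L T T P P) := by
      have := cl_of_base (k := ℚ) (NK L T T P P) 2
      simpa using this
    rcases hx with ((rfl | rfl) | (rfl | rfl | rfl | rfl)) |
      ((⟨i, rfl⟩ | ⟨_, ⟨i, rfl⟩, rfl⟩) | (⟨i, rfl⟩ | ⟨_, ⟨i, rfl⟩, rfl⟩ | ⟨_, ⟨i, rfl⟩, rfl⟩))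
    · exact subset_cl _ (Or.inl (Or.inl rfl))
    · exact subset_cl _ (Or.inl (Or.inr rfl))
    · exact subset_cl _ (Or.inr (Or.inr (Or.inl (hPl _ L.ω₁_mem_lattice))))
    · exact subset_cl _ (Or.inr (Or.inr (Or.inl (hPl _ L.ω₂_mem_lattice))))
    · exact cl_mul h2 (hz _ (half_mem h.hP L.ω₁_mem_lattice) (half₁ L))
    · exact cl_mul h2 (hz _ (half_mem h.hP L.ω₂_mem_lattice) (half₂ L))
    · exact subset_cl _ (Or.inr (Or.inl (Or.inl (hYX₁ (b₁ i).2))))
    · exact subset_cl _ (Or.inr (Or.inl (Or.inr ⟨_, hYX₁ (b₁ i).2, rfl⟩)))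
    · exact subset_cl _ (Or.inr (Or.inr (Or.inl (hYX₂ (hpY i)))))
    · exact subset_cl _ (Or.inr (Or.inr (Or.inr (Or.inr ⟨_, ⟨hYX₂ (hpY i), hpL i⟩, rfl⟩))))
    · exact hz _ (hYX₂ (hpY i)) (hpL i)
  have h4 := h3.trans (rk_le_of_subset_cl hsub)
  have h5 := h.lt
  have t1 : M.eRk (NK L T T P P) ≠ ⊤ := by
    intro h
    rw [h, top_add, top_le_iff] at h5
    exact ENat.natCast_ne_top _ h5
  obtain ⟨r, hr⟩ := ENat.ne_top_iff_exists.1 t1
  rw [← hr] at h4 h5
  have h6 : dimMod T₀ (fun i => (b₁ i : ℂ)) + 4 / finrank ℚ (kL L) + 2 * dimMod (P₀ L) p ≤ r := by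
    exact_mod_cast h4
  have h7 : r + 2 ≤ finrank ℚ T + 2 * finrank (kL L) P := by exact_mod_cast h5
  rw [four_div] at h6
  rw [finrank_P₁] at e1 hYd₁ g1
  have e1' : dimMod T₀ (fun i => (b₁ i : ℂ)) + 1 = finrank ℚ (Y₁ ⊔ P₁ : Submodule ℚ ℂ) := e1
  have e2' : dimMod (P₀ L) p + finrank (kL L) (P₂ L) =
    finrank (kL L) (Y₂ ⊔ P₂ L : Submodule (kL L) ℂ) := e2
  omega

theorem not_conjecture_iff : ¬ Conjecture L ↔ ∃ T P, Bad L T P := by
  constructor
  · intro h
    unfold Conjecture at h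
    push Not at h
    obtain ⟨s, n, t, p, hp, h⟩ := h
    exact exists_bad hp h
  · rintro ⟨T, P, h⟩
    exact h.not_conjecture

/-- the closure as a space over a field of algebraic numbers -/
def clK (K : IntermediateField ℚ ℂ) [FiniteDimensional ℚ K] (X : Set ℂ) : Submodule K ℂ where
  carrier := M.closure X
  add_mem' := fun ha hb => cl_add ha hb
  zero_mem' := by
    have := cl_of_base (k := ℚ) X 0
    simpa using this
  smul_mem' := fun a x hx => by
    have h1 : IsAlgebraic ℚ (a : ℂ) := by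
      have : Algebra.IsAlgebraic ℚ K := Algebra.IsAlgebraic.of_finite ℚ K
      exact (Algebra.IsAlgebraic.isAlgebraic (R := ℚ) a).algebraMap
    exact cl_mul (cl_alg h1) hx

theorem mem_clK {K : IntermediateField ℚ ℂ} [FiniteDimensional ℚ K] {X : Set ℂ} {x : ℂ} :
    x ∈ clK K X ↔ x ∈ M.closure X := Iff.rfl

variable {K : IntermediateField ℚ ℂ}

/-- a space over `K` as a space over the field of multiplications -/
def toK (hK : kL L ≤ K) (V : Submodule K ℂ) : Submodule (kL L) ℂ where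
  carrier := V
  add_mem' := V.add_mem
  zero_mem' := V.zero_mem
  smul_mem' := fun a v hv => V.smul_mem (⟨a, hK a.2⟩ : K) hv

/-- a space over `K` as a rational space -/
abbrev toQ (V : Submodule K ℂ) : Submodule ℚ ℂ := V.restrictScalars ℚ

theorem mem_toK {hK : kL L ≤ K} {V : Submodule K ℂ} {x : ℂ} : x ∈ toK hK V ↔ x ∈ V := Iff.rfl

theorem mem_toQ {V : Submodule K ℂ} {x : ℂ} : x ∈ toQ V ↔ x ∈ V := Iff.rfl

section

variable [FiniteDimensional ℚ K] (V : Submodule K ℂ) [FiniteDimensional K V]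

theorem fin_toQ : FiniteDimensional ℚ (toQ V) := Module.Finite.trans (R := ℚ) K V

theorem finrank_toQ : finrank ℚ (toQ V) = finrank ℚ K * finrank K V :=
  (Module.finrank_mul_finrank ℚ K V).symm

theorem fin_toK (hK : kL L ≤ K) : FiniteDimensional (kL L) (toK hK V) := by
  have h2 : Module.Finite ℚ (toK hK V) := fin_toQ V
  exact Module.Finite.of_restrictScalars_finite ℚ (kL L) (toK hK V)

theorem finrank_toK (hK : kL L ≤ K) :
    finrank ℚ (kL L) * finrank (kL L) (toK hK V) = finrank ℚ K * finrank K V := by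
  have h1 : finrank ℚ (kL L) * finrank (kL L) (toK hK V) = finrank ℚ (toK hK V) :=
    Module.finrank_mul_finrank _ _ _
  rw [h1, ← finrank_toQ]
  rfl

theorem finrank_kL_pos (L : PeriodPair) : 0 < finrank ℚ (kL L) := by
  have h := finrank_P₂ L
  exact Nat.pos_of_ne_zero (fun h0 => by rw [h0, zero_mul] at h; omega)

theorem finrank_toK' (hK : kL L ≤ K) :
    finrank (kL L) (toK hK V) = finrank ℚ K * finrank K V / finrank ℚ (kL L) := by
  rw [← finrank_toK V hK, Nat.mul_div_cancel_left _ (finrank_kL_pos L)]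

end

/-- the numbers `g₂`, `g₃`, `v`, `e^v`, `ζ(v)`, `℘(v)` -/
def Num (L : PeriodPair) (V : Set ℂ) : Set ℂ :=
  {L.g₂, L.g₃} ∪ ((V ∪ Complex.exp '' V) ∪
    (ζ L '' (V \ (L.lattice : Set ℂ)) ∪ ℘[L] '' (V \ (L.lattice : Set ℂ))))

theorem NK_eq_Num (hK : kL L ≤ K) (V : Submodule K ℂ) :
    NK L (toQ V) (toQ V) (toK hK V) (toK hK V) = Num L V := by
  have h : zeta L = ζ L := rfl
  unfold NK NS Num
  rw [h]
  ext x
  simp only [Set.mem_union]
  constructor
  · rintro (h | ((h | h) | (h | (h | h))))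
    · exact Or.inl h
    · exact Or.inr (Or.inl (Or.inl h))
    · exact Or.inr (Or.inl (Or.inr h))
    · exact Or.inr (Or.inl (Or.inl h))
    · exact Or.inr (Or.inr (Or.inl h))
    · exact Or.inr (Or.inr (Or.inr h))
  · rintro (h | ((h | h) | (h | h)))
    · exact Or.inl h
    · exact Or.inr (Or.inl (Or.inl h))
    · exact Or.inr (Or.inl (Or.inr h))
    · exact Or.inr (Or.inr (Or.inr (Or.inl h)))
    · exact Or.inr (Or.inr (Or.inr (Or.inr h)))

theorem Num_mono {V W : Set ℂ} (h : V ⊆ W) : Num L V ⊆ Num L W :=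
  Set.union_subset_union_right _ (Set.union_subset_union
    (Set.union_subset_union h (Set.image_mono h)) (Set.union_subset_union
      (Set.image_mono (Set.sdiff_subset_sdiff_left h))
      (Set.image_mono (Set.sdiff_subset_sdiff_left h))))

theorem Num_subset_NK {T : Submodule ℚ ℂ} {P : Submodule (kL L) ℂ} {F : Set ℂ} (h : F ⊆ T)
    (h' : F ⊆ P) : Num L F ⊆ NK L T T P P := by
  rintro x (hx | ((hx | hx) | (hx | hx)))
  · exact Or.inl hx
  · exact Or.inr (Or.inl (Or.inl (h hx)))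
  · exact Or.inr (Or.inl (Or.inr (Set.image_mono h hx)))
  · exact Or.inr (Or.inr (Or.inr (Or.inl (Set.image_mono (Set.sdiff_subset_sdiff_left h') hx))))
  · exact Or.inr (Or.inr (Or.inr (Or.inr (Set.image_mono (Set.sdiff_subset_sdiff_left h') hx))))

/-- from two spaces to one space over `K` -/
theorem Bad.one_space [FiniteDimensional ℚ K] (hK : kL L ≤ K) {T : Submodule ℚ ℂ}
    {P : Submodule (kL L) ℂ} (h : Bad L T P) : ∃ V : Submodule K ℂ, FiniteDimensional K V ∧
      T ≤ toQ V ∧ P ≤ toK hK V ∧ Bad L (toQ V) (toK hK V) := by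
  have := h.fT
  have := h.fP
  obtain ⟨t, ht⟩ : T.FG := Module.Finite.iff_fg.mp inferInstance
  obtain ⟨p, hp⟩ : P.FG := Module.Finite.iff_fg.mp inferInstance
  set V : Submodule K ℂ := Submodule.span K ((t : Set ℂ) ∪ (p : Set ℂ)) with hV
  have hfin : FiniteDimensional K V :=
    FiniteDimensional.span_of_finite K (t.finite_toSet.union p.finite_toSet)
  have h1 : T ≤ toQ V := by
    rw [← ht, Submodule.span_le]
    intro x hx
    exact Submodule.subset_span (Or.inl hx)
  have h2 : P ≤ toK hK V := by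
    rw [← hp, Submodule.span_le]
    intro x hx
    exact Submodule.subset_span (s := ((t : Set ℂ) ∪ (p : Set ℂ))) (R := K) (Or.inr hx)
  have h3 : V ≤ clK K (NK L T T P P) := by
    rw [hV, Submodule.span_le]
    rintro x (hx | hx)
    · refine subset_cl _ (Or.inr (Or.inl (Or.inl ?_)))
      rw [← ht]
      exact Submodule.subset_span hx
    · refine subset_cl _ (Or.inr (Or.inr (Or.inl ?_)))
      rw [← hp]
      exact Submodule.subset_span hx
  have f1 := fin_toQ V
  have f2 := fin_toK V hK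
  exact ⟨V, hfin, h1, h2, h.absorb h1 h2 (fun x hx => h3 hx) (fun x hx => h3 hx)⟩

/-- The smallest set of complex numbers which contains `x` as soon as, for some finite subset `F`
of it, `x`, `e^x` are algebraically dependent over the field `E` generated by the periods,
`g₂`, `g₃` and by `v`, `e^v`, `ζ(v)`, `℘(v)` with `v` in `F`, or `x`, `℘(x)`, `ζ(x)` are
algebraically dependent over `E`. -/
inductive ClosedForm (L : PeriodPair) : ℂ → Prop
  | intro (F : Finset ℂ) (x : ℂ) (hF : ∀ y ∈ F, ClosedForm L y)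
      (hx : IsAlgebraic (IntermediateField.adjoin ℚ ({L.ω₁, L.ω₂} ∪ Num L F)) x ∨
        IsAlgebraic (IntermediateField.adjoin ℚ (insert x ({L.ω₁, L.ω₂} ∪ Num L F)))
          (Complex.exp x) ∨
        IsAlgebraic (IntermediateField.adjoin ℚ (insert x ({L.ω₁, L.ω₂} ∪ Num L F)))
          (℘[L] x) ∨
        IsAlgebraic (IntermediateField.adjoin ℚ
          (insert x (insert (℘[L] x) ({L.ω₁, L.ω₂} ∪ Num L F)))) (ζ L x)) : ClosedForm L x

theorem Bad.absorb_closedForm {x : ℂ} (hx : ClosedForm L x) :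
    ∀ (T : Submodule ℚ ℂ) (P : Submodule (kL L) ℂ), Bad L T P →
      ∃ (T' : Submodule ℚ ℂ) (P' : Submodule (kL L) ℂ), T ≤ T' ∧ P ≤ P' ∧ Bad L T' P' ∧
        x ∈ T' ∧ x ∈ P' := by
  classical
  induction hx with
  | intro F x hF hx ih =>
    intro T P hTP
    have key : ∀ E : Finset ℂ, (∀ y ∈ E, y ∈ F) → ∃ (T' : Submodule ℚ ℂ)
        (P' : Submodule (kL L) ℂ), T ≤ T' ∧ P ≤ P' ∧ Bad L T' P' ∧ (E : Set ℂ) ⊆ T' ∧
        (E : Set ℂ) ⊆ P' := by
      intro E
      induction E using Finset.induction_on with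
      | empty => intro _; exact ⟨T, P, le_rfl, le_rfl, hTP, by simp, by simp⟩
      | insert a E _ ihE =>
        intro hE
        obtain ⟨T₁, P₁', h1, h2, h3, h4, h5⟩ := ihE (fun y hy => hE y (Finset.mem_insert_of_mem hy))
        obtain ⟨T₂, P₂', g1, g2, g3, g4, g5⟩ :=
          ih a (hE a (Finset.mem_insert_self _ _)) T₁ P₁' h3
        refine ⟨T₂, P₂', h1.trans g1, h2.trans g2, g3, ?_, ?_⟩
        · rw [Finset.coe_insert]
          exact Set.insert_subset g4 (h4.trans g1)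
        · rw [Finset.coe_insert]
          exact Set.insert_subset g5 (h5.trans g2)
    obtain ⟨T₁, P₁', h1, h2, h3, h4, h5⟩ := key F (fun y hy => hy)
    have hsub : ({L.ω₁, L.ω₂} ∪ Num L F : Set ℂ) ⊆ NK L T₁ T₁ P₁' P₁' := by
      rintro y ((rfl | rfl) | hy)
      · exact Or.inr (Or.inr (Or.inl (h3.hP (lattice_le_P₂ L.ω₁_mem_lattice))))
      · exact Or.inr (Or.inr (Or.inl (h3.hP (lattice_le_P₂ L.ω₂_mem_lattice))))
      · exact Num_subset_NK h4 h5 hy
    -- adding `x` to the exponents if it is already a point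
    have fT : ∀ {P' : Submodule (kL L) ℂ}, P₁' ≤ P' → x ∈ P' → Bad L T₁ P' →
        ∃ (T' : Submodule ℚ ℂ) (P' : Submodule (kL L) ℂ), T ≤ T' ∧ P ≤ P' ∧ Bad L T' P' ∧
        x ∈ T' ∧ x ∈ P' := by
      intro P' hP' hxP' hb
      refine ⟨T₁ ⊔ Submodule.span ℚ {x}, P', h1.trans le_sup_left, h2.trans hP', hb.stepT
        (Or.inl (subset_cl _ (Or.inr (Or.inr (Or.inl hxP'))))),
        Submodule.mem_sup_right (Submodule.mem_span_singleton_self x), hxP'⟩
    have fP : (x ∈ M.closure (NK L T₁ T₁ P₁' P₁') ∨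
        ℘[L] x ∈ M.closure (insert x (NK L T₁ T₁ P₁' P₁')) ∨
        zeta L x ∈ M.closure (insert x (insert (℘[L] x) (NK L T₁ T₁ P₁' P₁')))) →
        ∃ (T' : Submodule ℚ ℂ) (P' : Submodule (kL L) ℂ), T ≤ T' ∧ P ≤ P' ∧ Bad L T' P' ∧
        x ∈ T' ∧ x ∈ P' := fun hx' => fT le_sup_left
          (Submodule.mem_sup_right (Submodule.mem_span_singleton_self x)) (h3.stepP hx')
    rcases hx with hx | hx | hx | hx
    · exact fP (Or.inl (cl_mono hsub (cl_of_isAlgebraic hx)))
    · have h6 := h3.stepT (x := x) (Or.inr (cl_mono (Set.insert_subset_insert hsub)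
        (cl_of_isAlgebraic hx)))
      refine ⟨T₁ ⊔ Submodule.span ℚ {x}, P₁' ⊔ Submodule.span (kL L) {x},
        h1.trans le_sup_left, h2.trans le_sup_left, h6.stepP (Or.inl (subset_cl _
          (Or.inr (Or.inl (Or.inl (Submodule.mem_sup_right
            (Submodule.mem_span_singleton_self x))))))),
        Submodule.mem_sup_right (Submodule.mem_span_singleton_self x),
        Submodule.mem_sup_right (Submodule.mem_span_singleton_self x)⟩
    · exact fP (Or.inr (Or.inl (cl_mono (Set.insert_subset_insert hsub)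
        (cl_of_isAlgebraic hx))))
    · exact fP (Or.inr (Or.inr (cl_mono (Set.insert_subset_insert
        (Set.insert_subset_insert hsub)) (cl_of_isAlgebraic hx))))

theorem Bad.absorb_finset (S : Finset ℂ) (hS : ∀ x ∈ S, ClosedForm L x) {T : Submodule ℚ ℂ}
    {P : Submodule (kL L) ℂ} (hTP : Bad L T P) :
    ∃ (T' : Submodule ℚ ℂ) (P' : Submodule (kL L) ℂ), T ≤ T' ∧ P ≤ P' ∧ Bad L T' P' ∧
      (S : Set ℂ) ⊆ T' ∧ (S : Set ℂ) ⊆ P' := by
  classical
  induction S using Finset.induction_on with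
  | empty => exact ⟨T, P, le_rfl, le_rfl, hTP, by simp, by simp⟩
  | insert a E _ ihE =>
    obtain ⟨T₁, P₁', h1, h2, h3, h4, h5⟩ := ihE (fun y hy => hS y (Finset.mem_insert_of_mem hy))
    obtain ⟨T₂, P₂', g1, g2, g3, g4, g5⟩ :=
      Bad.absorb_closedForm (hS a (Finset.mem_insert_self _ _)) T₁ P₁' h3
    refine ⟨T₂, P₂', h1.trans g1, h2.trans g2, g3, ?_, ?_⟩
    · rw [Finset.coe_insert]
      exact Set.insert_subset g4 (h4.trans g1)
    · rw [Finset.coe_insert]
      exact Set.insert_subset g5 (h5.trans g2)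

end Q88.ETO
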